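import Pool.Agent.Helper2_Poly.Final

/-!
# MP_5b0138_an: transplantation between convex polygons with generic angles is trivial

All known pairs of isospectral non-congruent plane domains are produced by transplantation: an
operator `T f = ∑ c_φ • (f ∘ φ)`, a finite sum over plane isometries `φ` with coefficient functions
`c_φ`, that intertwines the two Dirichlet Laplacians.  We prove that a nonzero transplantation
from a convex polygon whose corner angles are irrational multiples of `π` with pairwise irrational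
ratios to a convex polygon of at most the same area exists only if the two polygons are congruent,
and it is then a combination with constant coefficients of compositions with congruences.
-/

open Complex MeasureTheory Set Filter Topology InnerProductSpace Laplacian
open scoped ContDiff

namespace Pool.Agent.Results.MP_5b0138_an.GenericConvex

/-- The open half-plane to the left of the line through `p` with direction `u`. -/
def HalfPlane (p u : ℂ) : Set ℂ := {z | 0 < ((z - p) / u).im}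

/-- A convex polygon: a bounded nonempty intersection of finitely many open half-planes. -/
def ConvexPolygon (Ω : Set ℂ) : Prop :=
  Bornology.IsBounded Ω ∧ Ω.Nonempty ∧
    ∃ L : Finset (ℂ × ℂ), (∀ l ∈ L, ‖l.2‖ = 1) ∧ Ω = {z | ∀ l ∈ L, z ∈ HalfPlane l.1 l.2}

/-- Near `q` the set `Ω` is the open sector with vertex `q` and opening angle `α`. -/
def HasAngle (Ω : Set ℂ) (q : ℂ) (α : ℝ) : Prop :=
  ∃ (u : ℂ) (r : ℝ), ‖u‖ = 1 ∧ 0 < r ∧ ∀ s θ : ℝ, 0 < s → s < r → 0 ≤ θ → θ < 2 * Real.pi →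
    (q + s * u * cexp (θ * I) ∈ Ω ↔ 0 < θ ∧ θ < α)

/-- The corner angles are irrational multiples of `π` with pairwise irrational ratios. -/
def GenericAngles (Ω : Set ℂ) : Prop :=
  (∀ q α, 0 < α → α < Real.pi → HasAngle Ω q α → Irrational (α / Real.pi)) ∧
    ∀ q₁ q₂ α₁ α₂, q₁ ≠ q₂ → 0 < α₁ → α₁ < Real.pi → 0 < α₂ → α₂ < Real.pi →
      HasAngle Ω q₁ α₁ → HasAngle Ω q₂ α₂ → Irrational (α₁ / α₂)

/-- `f` is smooth up to the boundary of `Ω` and vanishes on the boundary; outside `Ω` it is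
extended by zero. -/
def Admissible (Ω : Set ℂ) (f : ℂ → ℝ) : Prop :=
  Continuous f ∧ (∀ z, z ∉ Ω → f z = 0) ∧ ∃ g : ℂ → ℝ, ContDiff ℝ ∞ g ∧ ∀ z ∈ Ω, f z = g z

/-- The transplantation operator with isometries `Φ` and coefficient functions `c`. -/
noncomputable def transplant (Φ : Finset (ℂ ≃ᵢ ℂ)) (c : (ℂ ≃ᵢ ℂ) → ℂ → ℝ) (f : ℂ → ℝ) (x : ℂ) :
    ℝ :=
  ∑ φ ∈ Φ, c φ x * f (φ x)

/-- `h` satisfies the Dirichlet condition on `Ω` and `Δ h = k` in `Ω` in the sense of
distributions. -/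
def DirichletLaplacian (Ω : Set ℂ) (h k : ℂ → ℝ) : Prop :=
  Continuous h ∧ (∀ x, x ∉ Ω → h x = 0) ∧
    ∀ χ : ℂ → ℝ, ContDiff ℝ ∞ χ → HasCompactSupport χ → tsupport χ ⊆ Ω →
      ∫ x, h x * Δ χ x = ∫ x, k x * χ x

/-- The operator intertwines the Dirichlet Laplacians of `Ω` and `Ω'`: for every `f` smooth up to
the boundary of `Ω` and vanishing there, `T f` (almost everywhere on `Ω'`) satisfies the Dirichlet
condition on `Ω'` and `Δ (T f) = T (Δ f)`, where `Δ f` is the classical Laplacian in `Ω`,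
extended by zero. -/
def Intertwines (Ω Ω' : Set ℂ) (Φ : Finset (ℂ ≃ᵢ ℂ)) (c : (ℂ ≃ᵢ ℂ) → ℂ → ℝ) : Prop :=
  ∀ f, Admissible Ω f → ∃ h, DirichletLaplacian Ω' h (transplant Φ c (Ω.indicator (Δ f))) ∧
    ∀ᵐ x, x ∈ Ω' → h x = transplant Φ c f x

lemma ConvexPolygon.cp {Ω : Set ℂ} (h : ConvexPolygon Ω) : Helper2Poly.CP Ω := by
  obtain ⟨h1, h2, L, hL, hΩ⟩ := h
  refine ⟨h1, h2, L, hL, ?_⟩
  rw [hΩ]
  ext z
  simp only [mem_ofPred_eq, HalfPlane, Helper2Transp.nc, one_mul]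

/-- Corners have an angle in the sense of `HasAngle`. -/
lemma hasAngle_corner {Ω : Set ℂ} (h : Helper2Poly.CP Ω) {q : ℂ} (hq : Helper2Poly.Corner Ω q) :
    HasAngle Ω q (Helper2Poly.ang Ω q) := by
  have hπ := Real.pi_pos
  have hqn := h.notMem_of_frontier hq.1
  obtain ⟨z, hz⟩ := h.ne
  obtain ⟨d, hd, hpos, hpt⟩ := h.inner_dir hqn hz 1
  obtain ⟨a, b, r, hs⟩ := h.exists_sec hq.1 hd (Or.inl rfl) hpos (by rw [hpt]; exact hz)
  have ha0 := hs.a0
  have hb0 := hs.b0
  have hba := hs.ba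
  refine ⟨Helper2Drum.dr d 1 a, r, Helper2Drum.norm_dr hd 1 a, hs.r0,
    fun s θ hs0 hsr h1 h2 => ?_⟩
  rw [hs.ang hqn]
  have h3 : q + s * Helper2Drum.dr d 1 a * cexp (θ * I) = Helper2Drum.pt q d 1 s (a + θ) := by
    rw [← Helper2Drum.pt_rot]
    unfold Helper2Drum.pt
    rw [mul_assoc]
    congr 2
    unfold Helper2Drum.dr
    rw [one_mul, one_mul]
  rw [h3]
  by_cases h4 : a + θ ≤ Real.pi
  · rw [hs.iff s (a + θ) hs0 hsr (by linarith) h4]
    constructor
    · rintro ⟨h5, h6⟩; exact ⟨by linarith, by linarith⟩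
    · rintro ⟨h5, h6⟩; exact ⟨by linarith, by linarith⟩
  · push Not at h4
    have h5 : Helper2Drum.pt q d 1 s (a + θ) = Helper2Drum.pt q d 1 s (a + θ - 2 * Real.pi) := by
      rw [← Helper2Drum.pt_add_two_pi q d (Or.inl rfl) s (a + θ - 2 * Real.pi) 1]
      push_cast
      congr 1; ring
    rw [h5, hs.iff s _ hs0 hsr (by linarith) (by linarith)]
    constructor
    · rintro ⟨h6, -⟩; exfalso; linarith
    · rintro ⟨-, h6⟩; exfalso; linarith

lemma GenericAngles.gen {Ω : Set ℂ} (h : Helper2Poly.CP Ω) (g : GenericAngles Ω) :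
    Helper2Poly.Gen Ω where
  irr := fun q hq => g.1 q _ (h.ang_frontier hq.1).1 (h.corner_ang hq) (hasAngle_corner h hq)
  pair := fun q₁ q₂ h1 h2 hne => g.2 q₁ q₂ _ _ hne (h.ang_frontier h1.1).1 (h.corner_ang h1)
    (h.ang_frontier h2.1).1 (h.corner_ang h2) (hasAngle_corner h h1) (hasAngle_corner h h2)

/-- A nonzero transplantation from a convex polygon with generic angles to a convex polygon of at
most the same area exists only if the two polygons are congruent, and it is then a combination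
with constant coefficients of compositions with isometries carrying `Ω'` onto `Ω`. -/
theorem result {Ω Ω' : Set ℂ} (hΩ : ConvexPolygon Ω) (hΩ' : ConvexPolygon Ω')
    (hgen : GenericAngles Ω) (harea : volume Ω' ≤ volume Ω)
    (Φ : Finset (ℂ ≃ᵢ ℂ)) (c : (ℂ ≃ᵢ ℂ) → ℂ → ℝ) (hT : Intertwines Ω Ω' Φ c)
    (hne : ∃ f, Admissible Ω f ∧ ¬ ∀ᵐ x, x ∈ Ω' → transplant Φ c f x = 0) :
    (∃ φ ∈ Φ, φ '' Ω' = Ω) ∧
      ∃ γ : (ℂ ≃ᵢ ℂ) → ℝ, (∀ φ, γ φ ≠ 0 → φ '' Ω' = Ω) ∧
        ∀ f, Admissible Ω f →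
          ∀ᵐ x, x ∈ Ω' → transplant Φ c f x = ∑ φ ∈ Φ, γ φ * f (φ x) := by
  classical
  have cp := hΩ.cp
  have cp' := hΩ'.cp
  have T : Helper2Transp.TrW Ω Ω' Φ c := by
    refine ⟨cp.isOpen, cp'.isOpen, fun f hf => ?_⟩
    obtain ⟨h, ⟨h1, h2, h3⟩, h4⟩ := hT f hf
    exact ⟨h, h1, h2, h4, h3⟩
  have P := Helper2Poly.pl_of_trW T cp cp'
  set k := Helper2Poly.kc Ω Ω' Φ c with hk
  have hform : ∀ f, Admissible Ω f →
      ∀ᵐ x, x ∈ Ω' → transplant Φ c f x = ∑ φ ∈ Φ, k φ * f (φ x) := fun f hf =>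
    Helper2Poly.FF_ae T cp.convex cp'.convex hf.2.1
  have hex : ∃ ψ, k ψ ≠ 0 := by
    by_contra hcon
    push Not at hcon
    obtain ⟨f, hf, hnz⟩ := hne
    apply hnz
    filter_upwards [hform f hf] with x hx hxΩ'
    rw [hx hxΩ']
    exact Finset.sum_eq_zero fun φ _ => by rw [hcon φ, zero_mul]
  have harea' : volume.real Ω' ≤ volume.real Ω :=
    ENNReal.toReal_mono cp.bdd.measure_lt_top.ne harea
  have hmain := P.main (hgen.gen cp) hex harea'
  obtain ⟨ψ, hψ⟩ := hex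
  exact ⟨⟨ψ, P.mem ψ hψ, hmain ψ hψ⟩, k, hmain, hform⟩

end Pool.Agent.Results.MP_5b0138_an.GenericConvex
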